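import Pool.Agent.W854.HW.Stmts

set_option autoImplicit false

namespace Pool.Agent.W427.HW.Inex

open Pool.Agent.W854.HW

theorem insert_mx {n : ℕ} {T : Finset (Fin n)} {i0 s : Fin n} (x : Fin n → ℝ) (hs : s ∈ T)
    (hx : x i0 < x s) : mx (insert i0 T) x = mx T x := by
  have hT : T.Nonempty := ⟨s, hs⟩
  unfold mx
  rw [dif_pos (Finset.insert_nonempty i0 T), dif_pos hT, Finset.sup'_insert hT]
  apply sup_eq_right.mpr
  exact hx.le.trans (Finset.le_sup' x hs)

theorem insert_am {n : ℕ} {T : Finset (Fin n)} {i0 s : Fin n} (x : Fin n → ℝ) (hs : s ∈ T)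
    (hx : x i0 < x s) : argmaxCard (insert i0 T) x = argmaxCard T x := by
  unfold argmaxCard
  congr 1
  ext i
  simp only [Finset.mem_filter, Finset.mem_insert]
  constructor
  · rintro ⟨rfl | hi, h⟩
    · exact absurd (h s (Or.inr hs)) (not_le.mpr hx)
    · exact ⟨hi, fun j hj => h j (Or.inr hj)⟩
  · rintro ⟨hi, h⟩
    refine ⟨Or.inr hi, ?_⟩
    rintro j (rfl | hj)
    · exact hx.le.trans (h s hs)
    · exact h j hj

theorem main : S_INEX := by
  classical
  intro n Δ hΔ x G
  obtain ⟨A, hA⟩ : ∃ A, A = Δ.filter fun i => ∀ j ∈ Δ, x i ≤ x j := ⟨_, rfl⟩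
  rw [← hA]
  obtain ⟨i0, hi0, hmin⟩ := Finset.exists_min_image Δ x hΔ
  have hi0A : i0 ∈ A := by
    rw [hA]
    exact Finset.mem_filter.mpr ⟨hi0, hmin⟩
  have hAΔ : A ⊆ Δ := by rw [hA]; exact Finset.filter_subset _ _
  have hm0 : mn Δ x = x i0 := by
    unfold mn
    rw [dif_pos hΔ]
    apply le_antisymm (Finset.inf'_le x hi0)
    exact Finset.le_inf' hΔ x fun j hj => hmin j hj
  have hxA : ∀ i ∈ A, x i = x i0 := by
    intro i hi
    rw [hA, Finset.mem_filter] at hi
    exact le_antisymm (hi.2 i0 hi0) (hmin i hi.1)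
  have hlt : ∀ s ∈ Δ, s ∉ A → x i0 < x s := by
    intro s hs hsA
    apply lt_of_le_of_ne (hmin s hs)
    intro he
    apply hsA
    rw [hA, Finset.mem_filter]
    exact ⟨hs, fun j hj => he ▸ hmin j hj⟩
  obtain ⟨f, hf⟩ : ∃ f : Finset (Fin n) → ℝ, f = fun S => (-1 : ℝ) ^ (S.card + 1) *
      G (mx S x) (argmaxCard S x) := ⟨_, rfl⟩
  have hLHS : ∑ S ∈ Δ.powerset.erase ∅, (-1 : ℝ) ^ (S.card + 1) * G (mx S x) (argmaxCard S x) =
      ∑ S ∈ Δ.powerset.erase ∅, f S := by rw [hf]
  rw [hLHS, ← Finset.sum_filter_add_sum_filter_not (Δ.powerset.erase ∅) (fun S => S ⊆ A)]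
  -- the second sum vanishes
  have hins : ∀ T : Finset (Fin n), T ⊆ Δ → i0 ∉ T → ¬ T ⊆ A → f (insert i0 T) = -f T := by
    intro T hT hi hTA
    obtain ⟨s, hs, hsA⟩ := Finset.not_subset.mp hTA
    have hx := hlt s (hT hs) hsA
    rw [hf]
    simp only
    rw [insert_mx x hs hx, insert_am x hs hx, Finset.card_insert_of_notMem hi]
    ring
  have h2 : ∑ S ∈ (Δ.powerset.erase ∅).filter (fun S => ¬ S ⊆ A), f S = 0 := by
    apply Finset.sum_involution (fun S _ => if i0 ∈ S then S.erase i0 else insert i0 S)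
    · intro S hS
      simp only [Finset.mem_filter, Finset.mem_erase, Finset.mem_powerset] at hS
      obtain ⟨⟨-, hSΔ⟩, hSA⟩ := hS
      split_ifs with h
      · have h3 := hins (S.erase i0) ((Finset.erase_subset _ _).trans hSΔ)
          (Finset.notMem_erase _ _) (by
            intro hc
            apply hSA
            intro j hj
            by_cases hji : j = i0
            · rw [hji]; exact hi0A
            · exact hc (Finset.mem_erase.mpr ⟨hji, hj⟩))
        rw [Finset.insert_erase h] at h3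
        rw [h3]
        ring
      · rw [hins S hSΔ h hSA]
        ring
    · intro S hS _ hc
      split_ifs at hc with h
      · exact Finset.notMem_erase i0 S (hc.symm ▸ h)
      · exact h (hc ▸ Finset.mem_insert_self i0 S)
    · intro S hS
      by_cases h : i0 ∈ S
      · simp [h]
      · simp [h]
    · intro S hS
      simp only [Finset.mem_filter, Finset.mem_erase, Finset.mem_powerset] at hS ⊢
      obtain ⟨⟨-, hSΔ⟩, hSA⟩ := hS
      obtain ⟨s, hs, hsA⟩ := Finset.not_subset.mp hSA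
      have hsi : s ≠ i0 := fun h => hsA (h ▸ hi0A)
      split_ifs with h
      · have hs' : s ∈ S.erase i0 := Finset.mem_erase.mpr ⟨hsi, hs⟩
        refine ⟨⟨?_, (Finset.erase_subset _ _).trans hSΔ⟩, fun hc => hsA (hc hs')⟩
        exact Finset.ne_empty_of_mem hs'
      · have hs' : s ∈ insert i0 S := Finset.mem_insert_of_mem hs
        refine ⟨⟨Finset.ne_empty_of_mem hs', ?_⟩, fun hc => hsA (hc hs')⟩
        exact Finset.insert_subset hi0 hSΔ
  rw [h2, add_zero]
  -- the first sum
  have h3 : (Δ.powerset.erase ∅).filter (fun S => S ⊆ A) = A.powerset.erase ∅ := by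
    ext S
    simp only [Finset.mem_filter, Finset.mem_erase, Finset.mem_powerset]
    constructor
    · rintro ⟨⟨h1, -⟩, h2⟩
      exact ⟨h1, h2⟩
    · rintro ⟨h1, h2⟩
      exact ⟨⟨h1, h2.trans hAΔ⟩, h2⟩
  rw [h3]
  obtain ⟨F, hF⟩ : ∃ F : ℕ → ℝ, F = fun k => if k = 0 then 0 else
      (-1 : ℝ) ^ (k + 1) * G (mn Δ x) k := ⟨_, rfl⟩
  have h4 : ∀ S ∈ A.powerset.erase ∅, f S = F S.card := by
    intro S hS
    simp only [Finset.mem_erase, Finset.mem_powerset] at hS
    obtain ⟨hne, hSA⟩ := hS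
    have hne' : S.Nonempty := Finset.nonempty_iff_ne_empty.mpr hne
    have hc : S.card ≠ 0 := Finset.card_ne_zero.mpr hne'
    have h5 : mx S x = x i0 := by
      unfold mx
      rw [dif_pos hne']
      obtain ⟨s, hs⟩ := hne'
      apply le_antisymm
      · exact Finset.sup'_le _ _ fun j hj => (hxA j (hSA hj)).le
      · rw [← hxA s (hSA hs)]
        exact Finset.le_sup' x hs
    have h6 : argmaxCard S x = S.card := by
      unfold argmaxCard
      rw [Finset.filter_true_of_mem]
      intro i hi j hj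
      rw [hxA i (hSA hi), hxA j (hSA hj)]
    rw [hf, hF]
    simp only
    rw [if_neg hc, h5, h6, hm0]
  rw [Finset.sum_congr rfl h4]
  have h5 : ∑ S ∈ A.powerset.erase ∅, F S.card = ∑ S ∈ A.powerset, F S.card := by
    rw [← Finset.sum_erase_add _ _ (Finset.empty_mem_powerset A), Finset.card_empty]
    have : F 0 = 0 := by rw [hF]; simp
    rw [this, add_zero]
  rw [h5, Finset.sum_powerset_apply_card, Finset.sum_range_eq_add_Ico _ (Nat.succ_pos _)]
  have h6 : F 0 = 0 := by rw [hF]; simp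
  rw [h6, smul_zero, zero_add]
  have h7 : Finset.Ico 1 (A.card + 1) = Finset.Icc 1 A.card := by
    ext k
    simp only [Finset.mem_Ico, Finset.mem_Icc]
    omega
  rw [h7]
  refine Finset.sum_congr rfl fun k hk => ?_
  have hk1 := (Finset.mem_Icc.mp hk).1
  rw [hF]
  simp only
  rw [if_neg (by omega), nsmul_eq_mul]
  ring

end Pool.Agent.W427.HW.Inex
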